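import Mathlib
import Pool.Agent.Q263.HK.Rec

/-! # The Hankel determinants of the binary sum of digits are 2-automatic modulo every integer -/

set_option autoImplicit false

namespace Pool.Agent.Results.MP_47b218_nt.TwoAutomatic

/-- the binary sum of digits -/
def s (m : ℕ) : ℕ := (Nat.digits 2 m).sum

/-- the `n × n` Hankel determinant of the sequence `s` -/
def hankel (n : ℕ) : ℤ := (Matrix.of fun i j : Fin n => (s (i + j) : ℤ)).det

/-! ## The integer recurrences -/

lemma s_even (m : ℕ) : s (2 * m) = s m := by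
  rcases Nat.eq_zero_or_pos m with rfl | hm
  · simp [s]
  · rw [s, Nat.digits_def' (by norm_num) (by omega)]
    simp [s]

lemma s_odd (m : ℕ) : s (2 * m + 1) = s m + 1 := by
  rw [s, Nat.digits_def' (by norm_num) (by omega)]
  have h1 : (2 * m + 1) % 2 = 1 := by omega
  have h2 : (2 * m + 1) / 2 = m := by omega
  rw [h1, h2]
  simp [s, add_comm]

/-- auxiliary integer sequences -/
def hz' (n : ℕ) : ℤ := (Matrix.of fun i j : Fin n => (s (i + j) : ℤ) + 1).det - hankel n
def gz (n : ℕ) : ℤ := (Matrix.of fun i j : Fin n => (s (i + j + 1) : ℤ) - s (i + j)).det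
def gz' (n : ℕ) : ℤ :=
  (Matrix.of fun i j : Fin n => (s (i + j + 1) : ℤ) - s (i + j) + 1).det - gz n

open Q263.HK

/-- the digit sum as a complex sequence -/
def sc (m : ℕ) : ℂ := s m

lemma sc0 (m : ℕ) : sc (2 * m) = 1 * sc m := by simp [sc, s_even]
lemma sc1 (m : ℕ) : sc (2 * m + 1) = 1 * sc m + 1 := by simp [sc, s_odd]

lemma cast_h (n : ℕ) : (hankel n : ℂ) = h sc n := by
  rw [hankel, h, Int.cast_det]
  congr 1

lemma cast_h' (n : ℕ) : (hz' n : ℂ) = h' sc n := by
  rw [hz', h', dd, Int.cast_sub, cast_h, h, Int.cast_det]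
  congr 2
  ext i j
  simp [hk, sc, J]

lemma cast_g (n : ℕ) : (gz n : ℂ) = g sc n := by
  rw [gz, g, Int.cast_det]
  congr 1
  ext i j
  simp [hk, sc, Df]

lemma cast_g' (n : ℕ) : (gz' n : ℂ) = g' sc n := by
  rw [gz', g', dd, Int.cast_sub, cast_g, g, Int.cast_det]
  congr 2
  ext i j
  simp [hk, sc, J, Df]

lemma rec_h (p q : ℕ) (hq : 0 < q) (hpq : q ≤ p) (hpq' : p ≤ q + 1) :
    hankel (p + q) = hankel p * (gz q - 2 * gz' q) - hz' p * gz' q ∧
    hz' (p + q) = hz' p * (gz q - 2 * gz' q) := by
  have := h_rec sc0 sc1 p q hq hpq hpq'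
  simp only [one_pow, one_mul, ← cast_h, ← cast_h', ← cast_g, ← cast_g'] at this
  exact_mod_cast this

lemma rec_even (n : ℕ) (hn : 0 < n) :
    gz (2 * n) = (-1) ^ n * gz n * (gz n - 2 * gz' n) ∧
    gz' (2 * n) = 2 * (-1) ^ n * gz' n * (gz n - 2 * gz' n) := by
  have := g_even sc0 sc1 n hn
  simp only [one_pow, one_mul, ← cast_g, ← cast_g'] at this
  exact_mod_cast this

lemma rec_odd (n : ℕ) (hn : 0 < n) :
    gz (2 * n + 1) = (-1) ^ n * (gz' (n + 1) * gz n - gz (n + 1) * gz' n) ∧
    gz' (2 * n + 1) = (-1) ^ n * (gz' (n + 1) * gz n - gz (n + 1) * gz' n) := by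
  have := g_odd sc0 sc1 n hn
  simp only [one_pow, mul_one, ← cast_g, ← cast_g'] at this
  exact_mod_cast this

/-! ## The automaton -/

section automaton

variable (M : ℕ)

/-- residues of the five sequences `H, H', G, G', (-1)^n` -/
abbrev St := ZMod M × ZMod M × ZMod M × ZMod M × ZMod M

def u (n : ℕ) : St M := (hankel n, hz' n, gz n, gz' n, (-1) ^ n)

def F0 : St M → St M
  | (a, b, c, d, e) => (a * (c - 2 * d) - b * d, b * (c - 2 * d), e * c * (c - 2 * d),
      2 * e * d * (c - 2 * d), 1)

def F1 : St M → St M → St M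
  | (_, _, c, d, e), (a', b', c', d', _) => (a' * (c - 2 * d) - b' * d, b' * (c - 2 * d),
      e * (d' * c - c' * d), e * (d' * c - c' * d), -1)

lemma u_even (n : ℕ) (hn : 0 < n) : u M (2 * n) = F0 M (u M n) := by
  have h1 := rec_h n n hn le_rfl (by omega)
  have h2 := rec_even n hn
  rw [← two_mul] at h1
  simp only [u, F0, h1.1, h1.2, h2.1, h2.2, Prod.mk.injEq]
  refine ⟨?_, ?_, ?_, ?_, ?_⟩
  · push_cast; ring
  · push_cast; ring
  · push_cast; ring
  · push_cast; ring
  · rw [pow_mul]; norm_num

lemma u_odd (n : ℕ) (hn : 0 < n) : u M (2 * n + 1) = F1 M (u M n) (u M (n + 1)) := by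
  have h1 := rec_h (n + 1) n hn (by omega) le_rfl
  have h2 := rec_odd n hn
  rw [show n + 1 + n = 2 * n + 1 by ring] at h1
  simp only [u, F1, h1.1, h1.2, h2.1, h2.2, Prod.mk.injEq]
  refine ⟨?_, ?_, ?_, ?_, ?_⟩
  · push_cast; ring
  · push_cast; ring
  · push_cast; ring
  · push_cast; ring
  · rw [pow_succ, pow_mul]; norm_num

/-- the state after reading the binary expansion of `n` -/
def W (n : ℕ) : Option (St M × St M) := if n = 0 then none else some (u M n, u M (n + 1))

/-- the transitions -/
def step : Option (St M × St M) → ℕ → Option (St M × St M)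
  | none, b => if b = 0 then none else some (u M 1, u M 2)
  | some (x, y), b => if b = 0 then some (F0 M x, F1 M x y) else some (F1 M x y, F0 M y)

lemma W_even (n : ℕ) : W M (2 * n) = step M (W M n) 0 := by
  rcases Nat.eq_zero_or_pos n with rfl | hn
  · simp [W, step]
  · have h1 : n ≠ 0 := hn.ne'
    have h2 : 2 * n ≠ 0 := by omega
    simp only [W, h1, h2, if_false, step, if_true]
    rw [u_even M n hn, u_odd M n hn]

lemma W_odd (n : ℕ) : W M (2 * n + 1) = step M (W M n) 1 := by
  rcases Nat.eq_zero_or_pos n with rfl | hn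
  · simp [W, step]
  · have h1 : n ≠ 0 := hn.ne'
    have h2 : 2 * n + 1 ≠ 0 := by omega
    simp only [W, h1, h2, if_false, step, one_ne_zero]
    rw [show 2 * n + 1 + 1 = 2 * (n + 1) by ring, u_even M (n + 1) (by omega), u_odd M n hn]

/-- the output -/
def out : Option (St M × St M) → ℤ
  | none => 0
  | some (_, y) => (ZMod.val y.1 : ℤ)

lemma out_W [NeZero M] (n : ℕ) : hankel (n + 1) % (M : ℤ) = out M (W M n) := by
  rcases Nat.eq_zero_or_pos n with rfl | hn
  · have : hankel 1 = 0 := by
      simp [hankel, s, Matrix.det_unique]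
    simp [W, out, this]
  · have h1 : n ≠ 0 := hn.ne'
    simp only [W, h1, if_false, out, u]
    rw [ZMod.val_intCast]

lemma W_foldl (n : ℕ) : W M n = (Nat.digits 2 n).reverse.foldl (step M) none := by
  induction n using Nat.strong_induction_on with
  | _ n ih =>
    rcases Nat.eq_zero_or_pos n with rfl | hn
    · simp [W]
    · rw [Nat.digits_def' (by norm_num) hn, List.reverse_cons, List.foldl_append,
        ← ih (n / 2) (by omega)]
      simp only [List.foldl_cons, List.foldl_nil]
      rcases Nat.mod_two_eq_zero_or_one n with h | h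
      · rw [h, ← W_even]
        congr 1
        omega
      · rw [h, ← W_odd]
        congr 1
        omega

lemma W_kernel (e r : ℕ) (hr : r < 2 ^ e) :
    ∃ G : Option (St M × St M) → Option (St M × St M), ∀ n, W M (2 ^ e * n + r) = G (W M n) := by
  induction e generalizing r with
  | zero => exact ⟨id, fun n => by simp at hr; simp [hr]⟩
  | succ e ih =>
    obtain ⟨G, hG⟩ := ih (r / 2) (by rw [pow_succ] at hr; omega)
    refine ⟨fun q => step M (G q) (r % 2), fun n => ?_⟩
    simp only
    rw [← hG n]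
    rcases Nat.mod_two_eq_zero_or_one r with h | h
    · rw [h, ← W_even]
      congr 1
      rw [pow_succ]
      ring_nf
      omega
    · rw [h, ← W_odd]
      congr 1
      rw [pow_succ]
      ring_nf
      omega

end automaton

/-- For every modulus `M ≥ 1` (in particular for every power of `2`) the sequence
`H (n + 1) mod M` is produced by a finite automaton with output reading the binary expansion
of `n` (most significant digit first), and its 2-kernel is finite. -/
theorem result (M : ℕ) (hM : 1 ≤ M) :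
    (∃ (Q : Type) (_ : Finite Q) (step : Q → ℕ → Q) (q₀ : Q) (out : Q → ℤ), ∀ n : ℕ,
      hankel (n + 1) % (M : ℤ) = out ((Nat.digits 2 n).reverse.foldl step q₀)) ∧
    {f : ℕ → ℤ | ∃ e r : ℕ, r < 2 ^ e ∧
      f = fun n => hankel (2 ^ e * n + r + 1) % (M : ℤ)}.Finite := by
  have : NeZero M := ⟨by omega⟩
  refine ⟨⟨Option (St M × St M), inferInstance, step M, none, out M, fun n => ?_⟩, ?_⟩
  · rw [← W_foldl, out_W]
  · refine (Set.finite_range
      (fun G : Option (St M × St M) → Option (St M × St M) => fun n => out M (G (W M n)))).subset ?_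
    rintro f ⟨e, r, hr, rfl⟩
    obtain ⟨G, hG⟩ := W_kernel M e r hr
    refine ⟨G, ?_⟩
    funext n
    simp only
    rw [← hG n, out_W]

end Pool.Agent.Results.MP_47b218_nt.TwoAutomatic
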